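import Pool.Agent.H487.GA.Stm2

set_option autoImplicit false

/-! # GA HAD, part 2: the growth of the xi function (helper181) -/

open Finset Complex Filter Topology Metric Set MeasureTheory

namespace Pool.Agent.H181.GA

open Pool.Agent.H487.GA
open Pool.Agent.Helper242.KK (FT Ph)
open Pool.Agent.H477.Jen

noncomputable section

theorem growth : ∃ K T0 : ℝ, 0 < K ∧ 10 ≤ T0 ∧ ∀ T : ℝ, T0 ≤ T → ∀ t : ℝ, 3 / 4 * T ≤ t →
    t ≤ 5 / 2 * T → FT Ph ((t : ℂ) - 2 * I) ≠ 0 ∧ ∀ z : ℂ, ‖z - ((t : ℂ) - 2 * I)‖ ≤ 32 * Real.log T →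
      ‖FT Ph z‖ ≤ Real.exp (K * Real.log T ^ 2) * ‖FT Ph ((t : ℂ) - 2 * I)‖ := by
  obtain ⟨C, hloc⟩ : ∃ C : ℝ, Loc (FT Ph) (fun z => riemannZeta (1 / 2 + I * z))
      (fun t => HR (1 / 2 + I * t)) lamR C (1 / 2) 2 := ⟨_, loc_R⟩
  have hC1 := hloc.C1
  obtain ⟨A, hA1, hA⟩ := hloc.good 1 one_pos
  obtain ⟨T1, hT1⟩ := eventually_atTop.1 hloc.ev
  obtain ⟨T2, hT2⟩ := eventually_atTop.1 (ev_log_pow (3072 * C) 1 2)
  refine ⟨34 * (2 + C) + 75 * A * C + 2, max (max (2 * |T1|) T2) 10, by positivity, le_max_right _ _,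
    fun T hT t ht1 ht2 => ?_⟩
  have hTT1 : 2 * |T1| ≤ T := (le_max_left _ _).trans ((le_max_left _ _).trans hT)
  have hTT2 : T2 ≤ T := (le_max_right _ _).trans ((le_max_left _ _).trans hT)
  have hT10 : 10 ≤ T := (le_max_right _ _).trans hT
  have htT1 : T1 ≤ t := by
    have := le_abs_self T1
    have := abs_nonneg T1
    linarith
  have hbig := hT2 T hTT2
  set L := Real.log T with hL
  have hL1 : 1 ≤ L := by
    rw [hL, Real.le_log_iff_exp_le (by linarith)]
    have := Real.exp_one_lt_d9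
    linarith
  obtain ⟨⟨hCt, h1t⟩, -, hl1, hl2, hl3⟩ := hT1 t htT1
  have hlogt : Real.log t ≤ 2 * L := by
    have : Real.log (T ^ 2) = 2 * L := by
      rw [Real.log_pow, hL]; norm_num
    rw [← this]
    apply Real.log_le_log (by linarith)
    nlinarith
  have hlam : (lamR t).re ≤ 2 * L := by linarith
  have ht0 : 0 < t := by linarith
  -- sizes
  have hsz : C * (32 * L + 3) ^ 2 ≤ T / 3 := by
    have h1 : (32 * L + 3) ^ 2 ≤ 1024 * (1 + L) ^ 2 := by nlinarith
    have h2 := mul_le_mul_of_nonneg_left h1 (by linarith : 0 ≤ C)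
    linarith
  have hsz2 : (32 * L + 3) ^ 2 ≤ T / 3 := by
    refine le_trans ?_ hsz
    nlinarith [sq_nonneg (32 * L + 3)]
  have hfac : ∀ v : ℂ, v.im ≤ 0 → ‖v‖ ≤ 32 * L + 2 → ∃ θ : ℂ, ‖θ‖ ≤ 1 / 2 ∧
      FT Ph (t + v) = HR (1 / 2 + I * t) * exp (I * lamR t * v) * (1 + θ) *
        riemannZeta (1 / 2 + I * (t + v)) := by
    intro v hv hvn
    have hvn0 := norm_nonneg v
    obtain ⟨θ, h1, h2⟩ := hloc.fact t hCt v hv (by nlinarith)
    refine ⟨θ, h1.trans ?_, h2⟩
    rw [div_le_iff₀ ht0]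
    have h3 : (1 + ‖v‖) ^ 2 ≤ (32 * L + 3) ^ 2 := pow_le_pow_left₀ (by linarith) (by linarith) 2
    have h4 := mul_le_mul_of_nonneg_left h3 (by linarith : 0 ≤ C)
    linarith
  have hH0 : HR (1 / 2 + I * t) ≠ 0 := hloc.H0 t hCt
  have hHp : 0 < ‖HR (1 / 2 + I * t)‖ := norm_pos_iff.2 hH0
  -- the lower bound
  have hlow : ‖HR (1 / 2 + I * t)‖ / (2 * A) ≤ ‖FT Ph ((t : ℂ) - 2 * I)‖ := by
    obtain ⟨θ, h1, h2⟩ := hfac (-2 * I) (by simp) (by
      rw [norm_mul, norm_neg, norm_ofNat, norm_I]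
      linarith)
    have e : (t : ℂ) - 2 * I = t + -2 * I := by ring
    rw [e, h2, norm_mul, norm_mul, norm_mul]
    have g1 : 1 ≤ ‖exp (I * lamR t * (-2 * I))‖ := by
      rw [norm_exp]
      apply Real.one_le_exp
      have e1 : I * lamR t * (-2 * I) = 2 * lamR t := by
        have : I * lamR t * (-2 * I) = -2 * (I * I) * lamR t := by ring
        rw [this, I_mul_I]
        ring
      rw [e1]
      have e2 : (2 * lamR t : ℂ).re = 2 * (lamR t).re := by simp
      rw [e2]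
      linarith
    have g2 : 1 / 2 ≤ ‖1 + θ‖ := by
      have := norm_sub_norm_le (1 : ℂ) (-θ)
      rw [norm_one, norm_neg, sub_neg_eq_add] at this
      linarith
    have g3 : 1 / A ≤ ‖riemannZeta (1 / 2 + I * (t + -2 * I))‖ := by
      refine (hA (t + -2 * I) ?_).2
      simp
      norm_num
    calc ‖HR (1 / 2 + I * t)‖ / (2 * A) = ‖HR (1 / 2 + I * t)‖ * 1 * (1 / 2) * (1 / A) := by
          field_simp
      _ ≤ _ := by gcongr
  have hfz0 : FT Ph ((t : ℂ) - 2 * I) ≠ 0 := by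
    rw [← norm_pos_iff]
    exact lt_of_lt_of_le (by positivity) hlow
  refine ⟨hfz0, ?_⟩
  -- the upper bound in the lower half plane
  have hup : ∀ v : ℂ, v.im ≤ 0 → ‖v‖ ≤ 32 * L + 2 → ‖FT Ph (t + v)‖ ≤
      Real.exp ((34 * (2 + C) + 75 * A * C + 2) * L ^ 2) * ‖FT Ph ((t : ℂ) - 2 * I)‖ := by
    intro v hv hvn
    obtain ⟨θ, h1, h2⟩ := hfac v hv hvn
    have g1 := norm_exp_lam hloc hCt (by linarith) v
    have hre := abs_re_le_norm v
    have him := abs_im_le_norm v
    have g1' : ‖exp (I * lamR t * v)‖ ≤ Real.exp (34 * (2 + C) * L ^ 2) := by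
      refine g1.trans (Real.exp_le_exp.2 ?_)
      have a1 : (lamR t).re * |v.im| ≤ 2 * L * (34 * L) :=
        mul_le_mul hlam (by linarith) (abs_nonneg _) (by linarith)
      have a2 : C * |v.re| ≤ C * (34 * L ^ 2) := by
        refine mul_le_mul_of_nonneg_left ?_ (by linarith)
        nlinarith
      nlinarith
    have g2 : ‖1 + θ‖ ≤ 3 / 2 := by
      refine (norm_add_le _ _).trans ?_
      rw [norm_one]
      linarith
    have hvsmall : 32 * L + 2 ≤ T / 10 := by nlinarith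
    have g3 : ‖riemannZeta (1 / 2 + I * (t + v))‖ ≤ C * (25 * T ^ 2) := by
      have hre2 := (abs_le.1 hre).1
      have hsz3 : C ≤ (t + v : ℂ).re := by
        have e : (t + v : ℂ).re = t + v.re := by simp
        rw [e]
        nlinarith
      refine (hloc.crude (t + v) hsz3 (by simpa using hv)).trans ?_
      refine mul_le_mul_of_nonneg_left ?_ (by linarith)
      have h5 : ‖(t : ℂ) + v‖ ≤ 5 * T := by
        refine (norm_add_le _ _).trans ?_
        rw [norm_real, Real.norm_eq_abs, abs_of_pos ht0]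
        linarith
      calc ‖(t : ℂ) + v‖ ^ 2 ≤ (5 * T) ^ 2 := pow_le_pow_left₀ (norm_nonneg _) h5 2
        _ = 25 * T ^ 2 := by ring
    rw [h2, norm_mul, norm_mul, norm_mul]
    have hTe : T ^ 2 ≤ Real.exp (2 * L ^ 2) := by
      have : T = Real.exp L := by rw [hL, Real.exp_log (by linarith)]
      rw [this, ← Real.exp_nat_mul]
      apply Real.exp_le_exp.2
      push_cast
      nlinarith
    have hAe : 75 * A * C ≤ Real.exp (75 * A * C * L ^ 2) := by
      have h6 := Real.add_one_le_exp (75 * A * C * L ^ 2)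
      have h7 : 75 * A * C ≤ 75 * A * C * L ^ 2 := by
        have : 1 ≤ L ^ 2 := by nlinarith
        have hAC : 0 ≤ 75 * A * C := by positivity
        nlinarith
      linarith
    calc ‖HR (1 / 2 + I * t)‖ * ‖exp (I * lamR t * v)‖ * ‖1 + θ‖ * ‖riemannZeta (1 / 2 + I * (t + v))‖
        ≤ ‖HR (1 / 2 + I * t)‖ * Real.exp (34 * (2 + C) * L ^ 2) * (3 / 2) * (C * (25 * T ^ 2)) := by
          gcongr
      _ = (Real.exp (34 * (2 + C) * L ^ 2) * (75 * A * C) * T ^ 2) *
            (‖HR (1 / 2 + I * t)‖ / (2 * A)) := by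
          field_simp
          ring
      _ ≤ (Real.exp (34 * (2 + C) * L ^ 2) * Real.exp (75 * A * C * L ^ 2) * Real.exp (2 * L ^ 2)) *
            ‖FT Ph ((t : ℂ) - 2 * I)‖ := by
          gcongr
      _ = _ := by
          rw [← Real.exp_add, ← Real.exp_add]
          congr 2
          ring
  intro z hz
  rcases le_or_gt z.im 0 with hzi | hzi
  · have h1 := hup (z - t) (by simpa using hzi) (by
      have e : z - t = (z - ((t : ℂ) - 2 * I)) + -2 * I := by ring
      rw [e]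
      refine (norm_add_le _ _).trans ?_
      rw [norm_mul, norm_neg, norm_ofNat, norm_I]
      linarith)
    rwa [add_sub_cancel] at h1
  · have h1 := hup ((starRingEnd ℂ) z - t) (by
      simp
      exact hzi.le) (by
      have e : (starRingEnd ℂ) z - t = ((starRingEnd ℂ) z - ((t : ℂ) - 2 * I)) + -2 * I := by ring
      rw [e]
      refine (norm_add_le _ _).trans ?_
      rw [norm_mul, norm_neg, norm_ofNat, norm_I]
      have h3 : ‖(starRingEnd ℂ) z - ((t : ℂ) - 2 * I)‖ ≤ ‖z - ((t : ℂ) - 2 * I)‖ := by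
        rw [← sq_le_sq₀ (norm_nonneg _) (norm_nonneg _), ← normSq_eq_norm_sq, ← normSq_eq_norm_sq,
          normSq_apply, normSq_apply]
        simp
        nlinarith
      linarith)
    rw [add_sub_cancel, loc_R.conj, norm_conj] at h1
    exact h1

end

end Pool.Agent.H181.GA
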