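import Pool.Agent.H181.GA.Had1
import Pool.Agent.H181.GA.Had2

set_option autoImplicit false

/-! # GA HAD: `Im Ξ'/Ξ` as a sum over the zeros with an error `O(y)` (helper181) -/

open Finset Complex Filter Topology Metric Set MeasureTheory

namespace Pool.Agent.H181.GA

open Pool.Agent.H487.GA
open Pool.Agent.Helper242.KK (FT Ph)
open Pool.Agent.H477.Jen

noncomputable section

theorem conj_ofReal' (x : ℝ) : (starRingEnd ℂ) (x : ℂ) = x := conj_ofReal x

theorem deriv_conj' (z : ℂ) : deriv (FT Ph) ((starRingEnd ℂ) z) = (starRingEnd ℂ) (deriv (FT Ph) z) := by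
  have h1 : (starRingEnd ℂ) ∘ FT Ph ∘ (starRingEnd ℂ) = FT Ph := by
    funext w
    simp only [Function.comp]
    rw [f_conj, Complex.conj_conj]
  have h2 := congrFun (deriv_conj_conj (𝕜 := ℂ) (f := FT Ph)) ((starRingEnd ℂ) z)
  rw [h1] at h2
  simp only [Function.comp, Complex.conj_conj] at h2
  exact h2

theorem ld_real (x : ℝ) : (deriv (FT Ph) (x : ℂ) / FT Ph (x : ℂ)).im = 0 := by
  rw [← Complex.conj_eq_iff_im, map_div₀, ← deriv_conj', ← f_conj, conj_ofReal]

/-- the sum over all zeros is real on the real line -/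
theorem sum_real {T : ℝ} (hT : 2 ≤ T) (hfin : (ZI (T / 2) (3 * T)).Finite) (x : ℝ) :
    (∑ s ∈ hfin.toFinset, (mz s : ℂ) * (1 / ((x : ℂ) - zz s))).im = 0 := by
  rw [← Complex.conj_eq_iff_im, map_sum]
  have hmem : ∀ s ∈ hfin.toFinset, 1 - (starRingEnd ℂ) s ∈ hfin.toFinset ∧
      mz (1 - (starRingEnd ℂ) s) = mz s := by
    intro s hs
    rw [Set.Finite.mem_toFinset] at hs
    obtain ⟨h1, h2, h3, h4, h5⟩ := hs
    have h6 := H370.good_zeta.symm s h1 h2 (by linarith)
    refine ⟨?_, ?_⟩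
    · rw [Set.Finite.mem_toFinset]
      refine ⟨by simp; linarith, by simp; linarith, by simpa using h3, by simpa using h4, ?_⟩
      have ha : AnalyticAt ℂ riemannZeta s := H370.good_zeta.an s (by linarith)
      have ha' : AnalyticAt ℂ riemannZeta (1 - (starRingEnd ℂ) s) :=
        H370.good_zeta.an _ (by simp; linarith)
      have h7 : analyticOrderAt riemannZeta s ≠ 0 := by
        intro h8
        exact (ha.analyticOrderAt_eq_zero.1 h8) h5
      rw [← h6] at h7
      by_contra h8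
      exact h7 (ha'.analyticOrderAt_eq_zero.2 h8)
    · unfold mz analyticOrderNatAt
      rw [h6]
  refine Finset.sum_bij' (fun s _ => 1 - (starRingEnd ℂ) s) (fun s _ => 1 - (starRingEnd ℂ) s)
    (fun s hs => (hmem s hs).1) (fun s hs => (hmem s hs).1) (fun s _ => by simp) (fun s _ => by simp) ?_
  intro s hs
  rw [(hmem s hs).2, map_mul, map_natCast, map_div₀, map_one, map_sub, conj_ofReal]
  congr 3
  unfold zz
  simp only [map_mul, map_neg, conj_I, map_sub, map_div₀, map_one, map_ofNat]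
  ring

theorem had_proof : S_LAND → S_HAD := by
  intro hLAND
  obtain ⟨C2, hC2, hland⟩ := hLAND
  obtain ⟨K, T1, hK, hT1, hgrow⟩ := growth
  obtain ⟨C3, T2, hC3, hT2, hfar⟩ := far_sum
  obtain ⟨T3, hT3⟩ := eventually_atTop.1 (ev_log_pow 64 1 1)
  refine ⟨C2 * K + C3, max (max T1 T2) (max T3 10), by positivity, (le_max_right _ _).trans (le_max_right _ _),
    fun T hT => ?_⟩
  have hTT1 : T1 ≤ T := (le_max_left _ _).trans ((le_max_left _ _).trans hT)
  have hTT2 : T2 ≤ T := (le_max_right _ _).trans ((le_max_left _ _).trans hT)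
  have hTT3 : T3 ≤ T := (le_max_left _ _).trans ((le_max_right _ _).trans hT)
  have hT10 : 10 ≤ T := (le_max_right _ _).trans ((le_max_right _ _).trans hT)
  have hfin : (ZI (T / 2) (3 * T)).Finite := ZI_finite (by linarith)
  refine ⟨hfin, fun t ht1 ht2 y hy0 hy1 hne => ?_⟩
  have hbig := hT3 T hTT3
  have hgr := hgrow T hTT1 t ht1 ht2
  have hfarT := hfar T hTT2 hfin t
  set L := Real.log T with hL
  have hL1 : 1 ≤ L := by
    rw [hL, Real.le_log_iff_exp_le (by linarith)]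
    have := Real.exp_one_lt_d9
    linarith
  rw [pow_one] at hbig
  set z0 : ℂ := (t : ℂ) - 2 * I with hz0
  obtain ⟨hf0, hgr⟩ := hgr
  obtain ⟨hfinD, A, hA⟩ := hland (FT Ph) z0 (32 * L) (K * L ^ 2) (by linarith) (by positivity) f_diff hf0 hgr
  set S := hfin.toFinset with hS
  set Sn := S.filter (fun s => ‖zz s - z0‖ ≤ 32 * L / 2) with hSn
  set Sf := S.filter (fun s => ¬ ‖zz s - z0‖ ≤ 32 * L / 2) with hSf
  have hSmem : ∀ s ∈ S, 0 < s.re ∧ s.re < 1 ∧ T / 2 < s.im ∧ s.im ≤ 3 * T ∧ riemannZeta s = 0 := by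
    intro s hs
    rw [hS, Set.Finite.mem_toFinset] at hs
    exact hs
  have hz0re : z0.re = t := by simp [hz0]
  have hz0im : z0.im = -2 := by simp [hz0]
  -- the near zeros
  have hD : hfinD.toFinset = Sn.image zz := by
    ext ρ
    rw [Set.Finite.mem_toFinset, Finset.mem_image]
    constructor
    · rintro ⟨h1, h2⟩
      have h3 := (abs_re_le_norm (ρ - z0)).trans h2
      rw [sub_re, hz0re, abs_le] at h3
      have h4 : ρ.re ≠ 0 := by
        intro h
        rw [h] at h3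
        linarith
      obtain ⟨h5, h6, h7⟩ := f_zero h4 h1
      refine ⟨1 / 2 + I * ρ, ?_, zz_inv ρ⟩
      rw [hSn, Finset.mem_filter, zz_inv]
      refine ⟨?_, h2⟩
      rw [hS, Set.Finite.mem_toFinset]
      refine ⟨h5, h6, ?_, ?_, h7⟩
      · rw [s_im]
        linarith
      · rw [s_im]
        linarith
    · rintro ⟨s, hs, rfl⟩
      rw [hSn, Finset.mem_filter] at hs
      obtain ⟨h1, h2, h3, h4, h5⟩ := hSmem s hs.1
      exact ⟨f_zero' h1 (by linarith) h5, hs.2⟩
  have hnear : ∀ z : ℂ, ∑ᶠ ρ ∈ {ρ : ℂ | FT Ph ρ = 0 ∧ ‖ρ - z0‖ ≤ 32 * L / 2},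
      (analyticOrderNatAt (FT Ph) ρ : ℂ) * (1 / (z - ρ)) = ∑ s ∈ Sn, (mz s : ℂ) * (1 / (z - zz s)) := by
    intro z
    rw [finsum_mem_eq_finite_toFinset_sum _ hfinD, hD, Finset.sum_image (fun a _ b _ h => zz_injective h)]
    refine Finset.sum_congr rfl fun s hs => ?_
    rw [hSn, Finset.mem_filter] at hs
    obtain ⟨h1, h2, h3, h4, h5⟩ := hSmem s hs.1
    rw [ord_eq h1 (by linarith)]
  -- the remainder
  set B : ℂ → ℂ := fun z => A z - ∑ s ∈ Sf, (mz s : ℂ) * (1 / (z - zz s)) with hB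
  have hdist : ∀ z : ℂ, z.re = t → -(5 / 4) ≤ z.im → z.im ≤ 5 / 4 → ‖z - z0‖ ≤ 32 * L / 4 := by
    intro z h1 h2 h3
    have h4 := norm_le_abs_re_add_abs_im (z - z0)
    rw [sub_re, sub_im, hz0re, hz0im, h1, sub_self, abs_zero, zero_add] at h4
    have h5 : |z.im - -2| ≤ 4 := abs_le.2 ⟨by linarith, by linarith⟩
    linarith
  have hfar1 : ∀ s ∈ Sf, 13 * L ≤ |s.im - t| := by
    intro s hs
    rw [hSf, Finset.mem_filter] at hs
    obtain ⟨h1, h2, h3, h4, h5⟩ := hSmem s hs.1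
    have h6 := hs.2
    push Not at h6
    have h7 := norm_le_abs_re_add_abs_im (zz s - z0)
    rw [sub_re, sub_im, hz0re, hz0im, zz_re, zz_im] at h7
    have h8 : |1 / 2 - s.re - -2| ≤ 5 / 2 := abs_le.2 ⟨by linarith, by linarith⟩
    linarith
  have hfarne : ∀ z : ℂ, |z.re - t| ≤ 1 → ∀ s ∈ Sf, z - zz s ≠ 0 := by
    intro z hz s hs h
    have h1 := hfar1 s hs
    have h2 : z.re = s.im := by
      have := congrArg re h
      rw [sub_re, zz_re, zero_re] at this
      linarith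
    rw [h2] at hz
    linarith
  have hder : ∀ z : ℂ, z.re = t → -(5 / 4) ≤ z.im → z.im ≤ 5 / 4 → ∃ B' : ℂ, HasDerivAt B B' z ∧
      ‖B'‖ ≤ C2 * K + C3 := by
    intro z h1 h2 h3
    obtain ⟨hAan, hA', -⟩ := hA z (hdist z h1 h2 h3)
    have hsum : HasDerivAt (fun z : ℂ => ∑ s ∈ Sf, (mz s : ℂ) * (1 / (z - zz s)))
        (∑ s ∈ Sf, (mz s : ℂ) * (-1 / (z - zz s) ^ 2)) z := by
      refine HasDerivAt.fun_sum fun s hs => ?_
      have hne' := hfarne z (by rw [h1, sub_self, abs_zero]; norm_num) s hs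
      have h4 : HasDerivAt (fun z : ℂ => z - zz s) 1 z := (hasDerivAt_id z).sub_const _
      have h5 := (h4.inv hne').const_mul (mz s : ℂ)
      simpa [one_div] using h5
    refine ⟨_, hAan.differentiableAt.hasDerivAt.sub hsum, ?_⟩
    refine (norm_sub_le _ _).trans (add_le_add ?_ ?_)
    · refine hA'.trans ?_
      rw [div_le_iff₀ (by positivity)]
      have : (0 : ℝ) ≤ C2 * K * L ^ 2 := by positivity
      nlinarith
    · refine (norm_sum_le _ _).trans ?_
      refine le_trans ?_ hfarT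
      refine (Finset.sum_le_sum (f := fun s => ‖(mz s : ℂ) * (-1 / (z - zz s) ^ 2)‖)
        (g := fun s => (mz s : ℝ) * (1 / (s.im - t) ^ 2)) fun s hs => ?_).trans ?_
      · rw [norm_mul, norm_natCast, norm_div, norm_neg, norm_one, norm_pow]
        refine mul_le_mul_of_nonneg_left ?_ (Nat.cast_nonneg _)
        have h4 : |s.im - t| ≤ ‖z - zz s‖ := by
          have := abs_re_le_norm (z - zz s)
          rw [sub_re, zz_re, h1, abs_sub_comm] at this
          exact this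
        have h5 : 0 < |s.im - t| := by
          have := hfar1 s hs
          linarith
        rw [← sq_abs (s.im - t)]
        exact one_div_le_one_div_of_le (by positivity) (pow_le_pow_left₀ h5.le h4 2)
      · refine Finset.sum_le_sum_of_subset_of_nonneg ?_ fun _ _ _ => by positivity
        intro s hs
        rw [Finset.mem_filter]
        refine ⟨?_, hfar1 s hs⟩
        rw [hSf, Finset.mem_filter] at hs
        exact hs.1
  -- the formula
  have hform : ∀ z : ℂ, ‖z - z0‖ ≤ 32 * L / 4 → FT Ph z ≠ 0 →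
      deriv (FT Ph) z / FT Ph z - ∑ s ∈ S, (mz s : ℂ) * (1 / (z - zz s)) = B z := by
    intro z h1 h2
    rw [(hA z h1).2.2 h2, hnear, hB]
    simp only []
    rw [← Finset.sum_filter_add_sum_filter_not S (fun s => ‖zz s - z0‖ ≤ 32 * L / 2)]
    ring
  -- `B t` is real
  have hBt : (B t).im = 0 := by
    have hcont : ContinuousAt B t := by
      obtain ⟨B', hB', -⟩ := hder t (by simp) (by simp; norm_num) (by simp; norm_num)
      exact hB'.continuousAt
    have hcont2 : Tendsto (fun u : ℝ => (B ((t + u : ℝ) : ℂ)).im) (𝓝[≠] (0 : ℝ)) (𝓝 (B t).im) := by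
      have h1 : ContinuousAt (fun u : ℝ => (B ((t + u : ℝ) : ℂ)).im) 0 := by
        have h2 : ContinuousAt (fun u : ℝ => ((t + u : ℝ) : ℂ)) 0 := by fun_prop
        have h3 : ContinuousAt B (((t + (0 : ℝ) : ℝ) : ℂ)) := by rw [add_zero]; exact hcont
        exact continuous_im.continuousAt.comp (ContinuousAt.comp (f := fun u : ℝ => ((t + u : ℝ) : ℂ)) h3 h2)
      have h4 := h1.tendsto
      rw [add_zero] at h4
      exact h4.mono_left nhdsWithin_le_nhds
    have hzero : ∀ᶠ u : ℝ in 𝓝[≠] (0 : ℝ), (B ((t + u : ℝ) : ℂ)).im = 0 := by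
      have hfinR : {u : ℝ | FT Ph ((t + u : ℝ) : ℂ) = 0 ∧ ‖((t + u : ℝ) : ℂ) - z0‖ ≤ 32 * L / 2}.Finite := by
        refine Set.Finite.of_finite_image (f := fun u : ℝ => ((t + u : ℝ) : ℂ)) (hfinD.subset ?_) ?_
        · rintro _ ⟨u, hu, rfl⟩
          exact hu
        · intro a _ b _ hab
          have h1 : ((t + a : ℝ) : ℂ) = ((t + b : ℝ) : ℂ) := hab
          have h2 := ofReal_injective h1
          linarith
      have h1 : ∀ᶠ u : ℝ in 𝓝[≠] (0 : ℝ),
          u ∉ {u : ℝ | FT Ph ((t + u : ℝ) : ℂ) = 0 ∧ ‖((t + u : ℝ) : ℂ) - z0‖ ≤ 32 * L / 2} := by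
        have h2 : (({u : ℝ | FT Ph ((t + u : ℝ) : ℂ) = 0 ∧
            ‖((t + u : ℝ) : ℂ) - z0‖ ≤ 32 * L / 2} \ {0})ᶜ) ∈ 𝓝 (0 : ℝ) :=
          (hfinR.sdiff).isClosed.isOpen_compl.mem_nhds (by simp)
        filter_upwards [nhdsWithin_le_nhds h2, self_mem_nhdsWithin] with u hu1 hu2 hu3
        exact hu1 ⟨hu3, hu2⟩
      have h3 : ∀ᶠ u : ℝ in 𝓝[≠] (0 : ℝ), |u| < 1 := by
        have : ∀ᶠ u : ℝ in 𝓝 (0 : ℝ), |u| < 1 := by
          have h4 : ContinuousAt (fun u : ℝ => |u|) 0 := by fun_prop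
          exact h4.eventually (gt_mem_nhds (by simp))
        exact nhdsWithin_le_nhds this
      filter_upwards [h1, h3] with u hu1 hu2
      have h4 : ‖((t + u : ℝ) : ℂ) - z0‖ ≤ 32 * L / 4 := by
        have h5 := norm_le_abs_re_add_abs_im (((t + u : ℝ) : ℂ) - z0)
        rw [sub_re, sub_im, hz0re, hz0im, ofReal_re, ofReal_im] at h5
        have h6 : |t + u - t| ≤ 1 := by
          rw [add_sub_cancel_left]
          exact hu2.le
        have h7 : |(0 : ℝ) - -2| = 2 := by norm_num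
        linarith
      have h5 : FT Ph ((t + u : ℝ) : ℂ) ≠ 0 := by
        intro h
        exact hu1 ⟨h, by linarith⟩
      rw [← hform _ h4 h5, sub_im, ld_real, sum_real (by linarith), sub_zero]
    exact tendsto_nhds_unique hcont2 ((tendsto_congr' hzero).2 tendsto_const_nhds)
  -- the mean value inequality
  have hseg : ∀ z ∈ segment ℝ ((t : ℂ)) ((t : ℂ) - I * y), z.re = t ∧ -(5 / 4) ≤ z.im ∧ z.im ≤ 5 / 4 := by
    intro z hz
    rw [segment_eq_image] at hz
    obtain ⟨θ, hθ, rfl⟩ := hz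
    refine ⟨?_, ?_, ?_⟩
    · simp
      ring
    · simp
      nlinarith [hθ.1, hθ.2]
    · simp
      nlinarith [hθ.1, hθ.2]
  have hmv : ‖B ((t : ℂ) - I * y) - B t‖ ≤ (C2 * K + C3) * ‖((t : ℂ) - I * y) - t‖ := by
    choose! B' hB' using hder
    refine Convex.norm_image_sub_le_of_norm_hasDerivWithin_le (f := B) (f' := B')
      (s := segment ℝ ((t : ℂ)) ((t : ℂ) - I * y)) (fun z hz => ?_) (fun z hz => ?_) (convex_segment _ _)
      (left_mem_segment _ _ _) (right_mem_segment _ _ _)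
    · obtain ⟨h1, h2, h3⟩ := hseg z hz
      exact (hB' z h1 h2 h3).1.hasDerivWithinAt
    · obtain ⟨h1, h2, h3⟩ := hseg z hz
      exact (hB' z h1 h2 h3).2
  have hnorm : ‖((t : ℂ) - I * y) - t‖ = y := by
    have : ((t : ℂ) - I * y) - t = -(I * y) := by ring
    rw [this, norm_neg, norm_mul, norm_I, one_mul, norm_real, Real.norm_eq_abs, abs_of_pos hy0]
  rw [hnorm] at hmv
  obtain ⟨g1, g2, g3⟩ := hseg _ (right_mem_segment ℝ ((t : ℂ)) ((t : ℂ) - I * y))
  have hfm := hform _ (hdist _ g1 g2 g3) hne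
  have hfs : ∑ᶠ ρ ∈ ZI (T / 2) (3 * T), (mz ρ : ℝ) * (1 / ((t : ℂ) - I * y - zz ρ)).im =
      (∑ s ∈ S, (mz s : ℂ) * (1 / ((t : ℂ) - I * y - zz s))).im := by
    rw [finsum_mem_eq_finite_toFinset_sum _ hfin, im_sum]
    refine Finset.sum_congr rfl fun s _ => ?_
    rw [← ofReal_natCast, im_ofReal_mul]
  rw [hfs, ← sub_im, hfm]
  have h9 : (B ((t : ℂ) - I * y)).im = (B ((t : ℂ) - I * y) - B t).im := by
    have h10 := sub_im (B ((t : ℂ) - I * y)) (B t)
    rw [h10, hBt, sub_zero]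
  rw [h9]
  exact (abs_im_le_norm _).trans hmv

end

end Pool.Agent.H181.GA

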