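import Pool.Agent.H487.GA.Stm2
import Pool.Graph.R_seed8.H370R2.Local
import Pool.Graph.R_seed8.H370R2.DirGood

set_option autoImplicit false

/-! # GA HAD, part 1: the zeros of the xi function and of zeta (helper181) -/

open Finset Complex Filter Topology Metric Set MeasureTheory

namespace Pool.Agent.H181.GA

open Pool.Agent.H487.GA
open Pool.Agent.Helper242.KK (FT Ph)
open Pool.Agent.H477.Jen

noncomputable section

theorem zz_re (s : ℂ) : (zz s).re = s.im := by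
  simp [zz]

theorem zz_im (s : ℂ) : (zz s).im = 1 / 2 - s.re := by
  simp [zz]

theorem zz_inv (z : ℂ) : zz (1 / 2 + I * z) = z := by
  unfold zz
  have : -I * (1 / 2 + I * z - 1 / 2) = -(I * I) * z := by ring
  rw [this, I_mul_I]
  ring

theorem inv_zz (s : ℂ) : 1 / 2 + I * zz s = s := by
  unfold zz
  have : 1 / 2 + I * (-I * (s - 1 / 2)) = 1 / 2 - (I * I) * (s - 1 / 2) := by ring
  rw [this, I_mul_I]
  ring

theorem zz_injective : Function.Injective zz := fun s s' h => by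
  rw [← inv_zz s, h, inv_zz]

theorem f_conj (z : ℂ) : FT Ph ((starRingEnd ℂ) z) = (starRingEnd ℂ) (FT Ph z) := loc_R.conj z

theorem f_diff : Differentiable ℂ (FT Ph) := loc_R.diff

theorem s_re (z : ℂ) : (1 / 2 + I * z).re = 1 / 2 - z.im := by
  simp
  ring

theorem s_im (z : ℂ) : (1 / 2 + I * z).im = z.re := by
  simp

theorem ne_one_of_re {z : ℂ} (h : z.re ≠ 0) : 1 / 2 + I * z ≠ 1 := by
  intro h1
  apply h
  rw [← s_im, h1, one_im]

theorem im_gt {z : ℂ} (h : z.re ≠ 0) (hz : FT Ph z = 0) : -(1 / 2) < z.im := by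
  by_contra hlt
  push Not at hlt
  have h1 : 1 ≤ (1 / 2 + I * z).re := by
    rw [s_re]
    linarith
  have h2 := ne_one_of_re h
  rw [FT_Ph_eq rfl (by linarith) h2] at hz
  exact mul_ne_zero (HR_ne (by linarith) h2) (riemannZeta_ne_zero_of_one_le_re h1) hz

theorem f_zero {z : ℂ} (h : z.re ≠ 0) (hz : FT Ph z = 0) :
    0 < (1 / 2 + I * z).re ∧ (1 / 2 + I * z).re < 1 ∧ riemannZeta (1 / 2 + I * z) = 0 := by
  have h1 := im_gt h hz
  have h2 : FT Ph ((starRingEnd ℂ) z) = 0 := by rw [f_conj, hz, map_zero]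
  have h3 := im_gt (z := (starRingEnd ℂ) z) (by simpa using h) h2
  rw [conj_im] at h3
  have h4 : 0 < (1 / 2 + I * z).re := by rw [s_re]; linarith
  refine ⟨h4, by rw [s_re]; linarith, ?_⟩
  have h5 := ne_one_of_re h
  rw [FT_Ph_eq rfl h4 h5] at hz
  exact (mul_eq_zero.1 hz).resolve_left (HR_ne h4 h5)

theorem f_zero' {s : ℂ} (h0 : 0 < s.re) (h1 : s.im ≠ 0) (hs : riemannZeta s = 0) :
    FT Ph (zz s) = 0 := by
  have h2 : s ≠ 1 := fun h => h1 (by rw [h, one_im])
  rw [FT_Ph_eq (inv_zz s).symm h0 h2, hs, mul_zero]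

theorem HR_an {s : ℂ} (h0 : 0 < s.re) (h1 : s ≠ 1) : AnalyticAt ℂ HR s := by
  have hop : IsOpen {z : ℂ | 0 < z.re ∧ z ≠ 1} := by
    have h2 : IsOpen {z : ℂ | 0 < z.re} := isOpen_lt continuous_const continuous_re
    exact h2.inter isOpen_compl_singleton
  have hd : DifferentiableOn ℂ HR {z : ℂ | 0 < z.re ∧ z ≠ 1} := fun z hz =>
    (hasDerivAt_HR hz.1 hz.2).differentiableAt.differentiableWithinAt
  exact hd.analyticAt (hop.mem_nhds ⟨h0, h1⟩)

theorem ord_eq {s : ℂ} (h0 : 0 < s.re) (h1 : s.im ≠ 0) :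
    analyticOrderNatAt (FT Ph) (zz s) = mz s := by
  have h2 : s ≠ 1 := fun h => h1 (by rw [h, one_im])
  have hev : FT Ph =ᶠ[𝓝 (zz s)] (HR ∘ fun z => 1 / 2 + I * z) *
      (riemannZeta ∘ fun z => 1 / 2 + I * z) := by
    have e1 : ∀ᶠ z in 𝓝 (zz s), 0 < (1 / 2 + I * z).re := by
      have hc : ContinuousAt (fun z : ℂ => (1 / 2 + I * z).re) (zz s) := by fun_prop
      refine hc.eventually (lt_mem_nhds ?_)
      show 0 < (1 / 2 + I * zz s).re
      rw [inv_zz]
      exact h0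
    have e2 : ∀ᶠ z in 𝓝 (zz s), (1 / 2 + I * z) ≠ 1 := by
      have hc : ContinuousAt (fun z : ℂ => 1 / 2 + I * z) (zz s) := by fun_prop
      refine hc.eventually_ne ?_
      rw [inv_zz]
      exact h2
    filter_upwards [e1, e2] with z h3 h4
    rw [FT_Ph_eq rfl h3 h4]
    rfl
  have hg : AnalyticAt ℂ (fun z : ℂ => 1 / 2 + I * z) (zz s) := by fun_prop
  have hg' : deriv (fun z : ℂ => 1 / 2 + I * z) (zz s) ≠ 0 := by
    have h3 : HasDerivAt (fun z : ℂ => 1 / 2 + I * z) (I * 1) (zz s) :=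
      ((hasDerivAt_id _).const_mul I).const_add _
    rw [h3.deriv, mul_one]
    exact I_ne_zero
  have ha1 : AnalyticAt ℂ HR (1 / 2 + I * zz s) := by rw [inv_zz]; exact HR_an h0 h2
  have ha2 : AnalyticAt ℂ riemannZeta (1 / 2 + I * zz s) := by
    rw [inv_zz]
    have hd : DifferentiableOn ℂ riemannZeta {1}ᶜ := fun z hz =>
      (differentiableAt_riemannZeta hz).differentiableWithinAt
    exact hd.analyticAt (isOpen_compl_singleton.mem_nhds h2)
  have hA1 : AnalyticAt ℂ (HR ∘ fun z => 1 / 2 + I * z) (zz s) :=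
    AnalyticAt.comp (g := HR) (f := fun z => 1 / 2 + I * z) ha1 hg
  have hA2 : AnalyticAt ℂ (riemannZeta ∘ fun z => 1 / 2 + I * z) (zz s) :=
    AnalyticAt.comp (g := riemannZeta) (f := fun z => 1 / 2 + I * z) ha2 hg
  unfold mz analyticOrderNatAt
  congr 1
  rw [analyticOrderAt_congr hev, analyticOrderAt_mul hA1 hA2,
    analyticOrderAt_comp_of_deriv_ne_zero hg hg', analyticOrderAt_comp_of_deriv_ne_zero hg hg',
    inv_zz]
  rw [inv_zz] at ha1
  rw [ha1.analyticOrderAt_eq_zero.2 (HR_ne h0 h2), zero_add]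

/-! ### sums over integers -/

theorem int_sum (K : Finset ℤ) (n : ℕ) (h : ∀ k ∈ K, n < k.natAbs) :
    ∑ k ∈ K, (((k.natAbs : ℕ) : ℝ) ^ 2)⁻¹ ≤ 4 / (n + 1) := by
  classical
  rw [Finset.sum_comp (fun m : ℕ => (((m : ℕ) : ℝ) ^ 2)⁻¹) (fun k : ℤ => k.natAbs)]
  obtain ⟨N, hN⟩ : ∃ N : ℕ, ∀ m ∈ K.image (fun k : ℤ => k.natAbs), m < N :=
    ⟨(K.image (fun k : ℤ => k.natAbs)).sup id + 1, fun m hm =>
      Nat.lt_succ_of_le (Finset.le_sup (f := id) hm)⟩
  have hcard : ∀ m ∈ K.image (fun k : ℤ => k.natAbs),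
      (Finset.card (K.filter fun k : ℤ => k.natAbs = m)) • (((m : ℕ) : ℝ) ^ 2)⁻¹ ≤
        2 * (((m : ℕ) : ℝ) ^ 2)⁻¹ := by
    intro m _
    rw [nsmul_eq_mul]
    refine mul_le_mul_of_nonneg_right ?_ (by positivity)
    have h1 : K.filter (fun k : ℤ => k.natAbs = m) ⊆ {(m : ℤ), -(m : ℤ)} := by
      intro k hk
      rw [Finset.mem_filter] at hk
      rw [Finset.mem_insert, Finset.mem_singleton]
      have := hk.2
      omega
    have h2 := (Finset.card_le_card h1).trans Finset.card_le_two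
    exact_mod_cast h2
  refine (Finset.sum_le_sum hcard).trans ?_
  rw [← Finset.mul_sum]
  have h3 : ∑ m ∈ K.image (fun k : ℤ => k.natAbs), (((m : ℕ) : ℝ) ^ 2)⁻¹ ≤
      ∑ m ∈ Finset.Ioo n N, (((m : ℕ) : ℝ) ^ 2)⁻¹ := by
    refine Finset.sum_le_sum_of_subset_of_nonneg ?_ fun _ _ _ => by positivity
    intro m hm
    rw [Finset.mem_Ioo]
    refine ⟨?_, hN m hm⟩
    obtain ⟨k, hk, rfl⟩ := Finset.mem_image.1 hm
    exact h k hk
  have h4 := sum_Ioo_inv_sq_le (α := ℝ) n N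
  have h5 : (4 : ℝ) / (n + 1) = 2 * (2 / (n + 1)) := by ring
  rw [h5]
  linarith [h3.trans h4]

theorem ZI_finite {A B : ℝ} (h : 1 ≤ A) : (ZI A B).Finite := H370.zset_finite H370.good_zeta A B h

/-- the zeros far from `t` -/
theorem far_sum : ∃ C3 T0 : ℝ, 0 < C3 ∧ 10 ≤ T0 ∧ ∀ T : ℝ, T0 ≤ T → ∀ (hfin : (ZI (T / 2) (3 * T)).Finite)
    (t : ℝ), ∑ s ∈ hfin.toFinset.filter (fun s => 13 * Real.log T ≤ |s.im - t|),
      (mz s : ℝ) * (1 / (s.im - t) ^ 2) ≤ C3 := by
  classical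
  obtain ⟨C, hC, hcount⟩ := H370.zcount H370.good_zeta
  refine ⟨6 * C, 10, by positivity, le_rfl, fun T hT hfin t => ?_⟩
  have hL1 : 1 ≤ Real.log T := by
    rw [Real.le_log_iff_exp_le (by linarith)]
    have := Real.exp_one_lt_d9
    linarith
  set L := Real.log T with hL
  set S := hfin.toFinset.filter (fun s => 13 * L ≤ |s.im - t|) with hS
  rw [← Finset.sum_fiberwise_of_maps_to (s := S) (t := S.image (fun s => ⌊s.im - t⌋))
    (g := fun s => ⌊s.im - t⌋) (fun s hs => Finset.mem_image_of_mem _ hs)]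
  have hk : ∀ k ∈ S.image (fun s => ⌊s.im - t⌋), 12 * L ≤ |(k : ℝ)| ∧
      ∑ s ∈ S.filter (fun s => ⌊s.im - t⌋ = k), (mz s : ℝ) * (1 / (s.im - t) ^ 2) ≤
        2 * C * L * (4 * (((k.natAbs : ℕ) : ℝ) ^ 2)⁻¹) := by
    intro k hk
    obtain ⟨s0, hs0, hk0⟩ := Finset.mem_image.mp hk
    have hs0' := Finset.mem_filter.1 hs0
    have hs0z : s0 ∈ ZI (T / 2) (3 * T) := by
      have := hs0'.1
      rwa [Set.Finite.mem_toFinset] at this
    obtain ⟨z1, z2, z3, z4, z5⟩ := hs0z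
    have hfl : ∀ x : ℝ, ⌊x⌋ = k → 13 * L ≤ |x| → 12 * L ≤ |(k : ℝ)| ∧ |(k : ℝ)| ≤ 2 * |x| := by
      intro x hx hx13
      have e1 : (k : ℝ) ≤ x := by rw [← hx]; exact Int.floor_le _
      have e2 : x < k + 1 := by rw [← hx]; exact Int.lt_floor_add_one _
      have e3 : |x - k| ≤ 1 := abs_le.2 ⟨by linarith, by linarith⟩
      have e4 : |x| ≤ |x - k| + |(k : ℝ)| := by
        have := abs_add_le (x - k) (k : ℝ)
        rwa [sub_add_cancel] at this
      have e5 : |(k : ℝ)| ≤ |x - k| + |x| := by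
        have := abs_add_le ((k : ℝ) - x) x
        rwa [sub_add_cancel, abs_sub_comm] at this
      constructor <;> linarith
    have hk12 := (hfl _ hk0 hs0'.2).1
    refine ⟨hk12, ?_⟩
    have hkpos : 0 < |(k : ℝ)| := by linarith
    have hkl : (k : ℝ) ≤ s0.im - t := by rw [← hk0]; exact Int.floor_le _
    have hku : s0.im - t < k + 1 := by rw [← hk0]; exact Int.lt_floor_add_one _
    set t' : ℝ := t + k + 1 / 2 with ht'
    have ht1 : 3.5 ≤ t' := by
      rw [ht']; norm_num; linarith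
    have ht2 : t' ≤ 3 * T + 1 := by
      rw [ht']; linarith
    have ht3 : 1 ≤ t' - 1 := by linarith
    have h1 : ∑ s ∈ S.filter (fun s => ⌊s.im - t⌋ = k), (mz s : ℝ) ≤
        (H370.NN riemannZeta (t' - 1) (t' + 1) : ℝ) := by
      have hfin' := H370.zset_finite H370.good_zeta (t' - 1) (t' + 1) ht3
      have e0 : H370.NN riemannZeta (t' - 1) (t' + 1) = ∑ s ∈ hfin'.toFinset, H370.mult riemannZeta s := by
        unfold H370.NN
        exact finsum_mem_eq_finite_toFinset_sum _ hfin'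
      rw [e0, Nat.cast_sum]
      refine Finset.sum_le_sum_of_subset_of_nonneg (f := fun s => (mz s : ℝ)) ?_ fun _ _ _ => by positivity
      intro s hs
      rw [Finset.mem_filter] at hs
      have hs1 := (Finset.mem_filter.1 hs.1).1
      rw [Set.Finite.mem_toFinset] at hs1 ⊢
      obtain ⟨a1, a2, a3, a4, a5⟩ := hs1
      have e1 : (k : ℝ) ≤ s.im - t := by rw [← hs.2]; exact Int.floor_le _
      have e2 : s.im - t < k + 1 := by rw [← hs.2]; exact Int.lt_floor_add_one _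
      exact ⟨a1, a2, by rw [ht']; linarith, by rw [ht']; linarith, a5⟩
    have h2 : (H370.NN riemannZeta (t' - 1) (t' + 1) : ℝ) ≤ 2 * C * L := by
      refine (hcount t' (by linarith)).trans ?_
      have h3 : Real.log t' ≤ 2 * L := by
        have : Real.log (T ^ 2) = 2 * Real.log T := by
          rw [Real.log_pow]; norm_num
        rw [hL, ← this]
        apply Real.log_le_log (by linarith)
        nlinarith
      nlinarith
    calc ∑ s ∈ S.filter (fun s => ⌊s.im - t⌋ = k), (mz s : ℝ) * (1 / (s.im - t) ^ 2)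
        ≤ ∑ s ∈ S.filter (fun s => ⌊s.im - t⌋ = k), (mz s : ℝ) * (4 * (((k.natAbs : ℕ) : ℝ) ^ 2)⁻¹) := by
          refine Finset.sum_le_sum fun s hs => ?_
          refine mul_le_mul_of_nonneg_left ?_ (Nat.cast_nonneg _)
          rw [Finset.mem_filter] at hs
          have h13 := (Finset.mem_filter.1 hs.1).2
          obtain ⟨-, h5⟩ := hfl _ hs.2 h13
          have e1 : (((k.natAbs : ℕ) : ℝ)) ^ 2 = |(k : ℝ)| ^ 2 := by
            rw [Nat.cast_natAbs, Int.cast_abs]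
          rw [e1, ← sq_abs (s.im - t)]
          have hx : 0 < |s.im - t| := by linarith
          rw [← div_eq_mul_inv, div_le_div_iff₀ (by positivity) (by positivity)]
          nlinarith
      _ = (∑ s ∈ S.filter (fun s => ⌊s.im - t⌋ = k), (mz s : ℝ)) * (4 * (((k.natAbs : ℕ) : ℝ) ^ 2)⁻¹) := by
          rw [Finset.sum_mul]
      _ ≤ _ := mul_le_mul_of_nonneg_right (h1.trans h2) (by positivity)
  refine (Finset.sum_le_sum fun k hk' => (hk k hk').2).trans ?_
  rw [← Finset.mul_sum, ← Finset.mul_sum]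
  have hn : ∀ k ∈ S.image (fun s => ⌊s.im - t⌋), ⌊6 * L⌋₊ < k.natAbs := by
    intro k hk'
    have h1 := (hk k hk').1
    have h2 : (⌊6 * L⌋₊ : ℝ) ≤ 6 * L := Nat.floor_le (by linarith)
    have h3 : ((k.natAbs : ℕ) : ℝ) = |(k : ℝ)| := by rw [Nat.cast_natAbs, Int.cast_abs]
    have h4 : (⌊6 * L⌋₊ : ℝ) < ((k.natAbs : ℕ) : ℝ) := by
      rw [h3]
      linarith
    exact_mod_cast h4
  have h1 := int_sum _ _ hn
  have h2 : 6 * L < (⌊6 * L⌋₊ : ℝ) + 1 := Nat.lt_floor_add_one _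
  have h3 : (4 : ℝ) / ((⌊6 * L⌋₊ : ℝ) + 1) ≤ 4 / (6 * L) :=
    div_le_div_of_nonneg_left (by norm_num) (by linarith) h2.le
  have h4 := h1.trans h3
  calc _ ≤ 2 * C * L * (4 * (4 / (6 * L))) := by
        refine mul_le_mul_of_nonneg_left (mul_le_mul_of_nonneg_left h4 (by norm_num)) (by positivity)
    _ = 16 / 3 * C := by
        field_simp
        ring
    _ ≤ 6 * C := by linarith

end

end Pool.Agent.H181.GA
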